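import Pool.Agent.helper88.PF.Spec

set_option autoImplicit false

namespace PF

theorem ACL_exf {ι : Type} (s : Finset ι) (P : ι → ℕ → Prop) (h : ∀ i ∈ s, REPred (P i)) :
    REPred (fun p => ∃ i ∈ s, P i p) := by
  classical
  induction s using Finset.induction_on with
  | empty =>
    refine (re_const False).of_eq fun p => ?_
    constructor
    · intro h; exact h.elim
    · rintro ⟨i, hi, _⟩
      exact absurd hi (Finset.notMem_empty i)
  | insert a s ha ih =>
    have h1 := ih fun i hi => h i (Finset.mem_insert_of_mem hi)
    have h2 := h a (Finset.mem_insert_self a s)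
    refine (re_or h2 h1).of_eq fun p => ?_
    constructor
    · rintro (h3 | ⟨i, hi, h3⟩)
      · exact ⟨a, Finset.mem_insert_self a s, h3⟩
      · exact ⟨i, Finset.mem_insert_of_mem hi, h3⟩
    · rintro ⟨i, hi, h3⟩
      rcases Finset.mem_insert.1 hi with rfl | hi
      · exact Or.inl h3
      · exact Or.inr ⟨i, hi, h3⟩

theorem ACL_allf {ι : Type} (s : Finset ι) (P : ι → ℕ → Prop) (h : ∀ i ∈ s, REPred (P i)) :
    REPred (fun p => ∀ i ∈ s, P i p) := by
  classical
  induction s using Finset.induction_on with
  | empty =>
    refine (re_const True).of_eq fun p => ?_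
    constructor
    · intro _ i hi
      exact absurd hi (Finset.notMem_empty i)
    · intro _
      trivial
  | insert a s ha ih =>
    have h1 := ih fun i hi => h i (Finset.mem_insert_of_mem hi)
    have h2 := h a (Finset.mem_insert_self a s)
    refine (re_and h2 h1).of_eq fun p => ?_
    constructor
    · rintro ⟨h3, h4⟩ i hi
      rcases Finset.mem_insert.1 hi with rfl | hi
      · exact h3
      · exact h4 i hi
    · intro h3
      exact ⟨h3 a (Finset.mem_insert_self a s), fun i hi => h3 i (Finset.mem_insert_of_mem hi)⟩

theorem ACL_two (α β : Type) [Preorder α] [Finite α] [Preorder β] (h : α → β) (a : ℕ → α)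
    (hm : Monotone h) (ha : CE a) : CE (fun p => h (a p)) := by
  intro u
  haveI := Fintype.ofFinite α
  have h1 := ACL_exf (Finset.univ : Finset α) (fun v p => u ≤ h v ∧ v ≤ a p)
    (fun v _ => re_and (re_const _) (ha v))
  refine h1.of_eq fun p => ?_
  constructor
  · rintro ⟨v, _, h2, h3⟩
    exact le_trans h2 (hm h3)
  · intro h2
    exact ⟨a p, Finset.mem_univ _, h2, le_refl _⟩

theorem ACL : ACL_stmt := by
  refine ⟨?_, ACL_two, ?_, ?_, ?_, ?_, ?_⟩
  · intro α _ v w
    exact re_const _
  · intro α β _ _ a b ha hb v
    refine (re_and (ha v.1) (hb v.2)).of_eq fun p => ?_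
    exact (Prod.le_def (x := v) (y := (a p, b p))).symm
  · intro α _ a f hf ha v
    exact re_comp (f := f) (p := fun p => v ≤ a p) hf (ha v)
  · intro α _ R a b c hR ha hb h1 h2 v
    refine (re_or (re_and hR.to_re (ha v)) (re_and (cp_not hR).to_re (hb v))).of_eq fun p => ?_
    constructor
    · rintro (⟨h3, h4⟩ | ⟨h3, h4⟩)
      · rw [h1 p h3]
        exact h4
      · rw [h2 p h3]
        exact h4
    · intro h3
      by_cases h4 : R p
      · left
        rw [h1 p h4] at h3
        exact ⟨h4, h3⟩
      · right
        rw [h2 p h4] at h3
        exact ⟨h4, h3⟩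
  · intro a
    constructor
    · intro h
      refine (h True).of_eq fun p => ?_
      constructor
      · intro h1
        exact h1 trivial
      · intro h1 _
        exact h1
    · intro h v
      by_cases hv : v
      · refine h.of_eq fun p => ?_
        constructor
        · intro h1 _
          exact h1
        · intro h1
          exact h1 hv
      · refine (re_const True).of_eq fun p => ?_
        constructor
        · intro _ h1
          exact absurd h1 hv
        · intro _
          trivial
  · intro α _ _ k a
    constructor
    · intro h i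
      exact ACL_two (Fin k → α) α (fun x => x i) a (fun x y hxy => hxy i) h
    · intro h v
      refine (ACL_allf (Finset.univ : Finset (Fin k)) (fun i p => v i ≤ a p i)
        (fun i _ => h i (v i))).of_eq fun p => ?_
      constructor
      · intro h1 i
        exact h1 i (Finset.mem_univ i)
      · intro h1 i _
        exact h1 i

end PF
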