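import Pool.Agent.helper88.PF.Spec

set_option autoImplicit false

namespace PF

theorem CR1_ev {L : Type} [Lattice L] [BoundedOrder L] (e e' : ℕ → L) (t : Tm)
    (h : ∀ i, t.Occ i → e i = e' i) : t.ev e = t.ev e' := by
  induction t with
  | var i => exact h i rfl
  | bot => rfl
  | top => rfl
  | sup a b iha ihb =>
    show a.ev e ⊔ b.ev e = a.ev e' ⊔ b.ev e'
    rw [iha fun i hi => h i (Or.inl hi), ihb fun i hi => h i (Or.inr hi)]
  | inf a b iha ihb =>
    show a.ev e ⊓ b.ev e = a.ev e' ⊓ b.ev e'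
    rw [iha fun i hi => h i (Or.inl hi), ihb fun i hi => h i (Or.inr hi)]

theorem CR1_eqAt (s s' : ℕ → Prop) (a : Tm × Tm)
    (h : ∀ i, a.1.Occ i ∨ a.2.Occ i → (s i ↔ s' i)) : eqAt s a ↔ eqAt s' a := by
  unfold eqAt
  rw [CR1_ev s s' a.1 fun i hi => propext (h i (Or.inl hi)),
    CR1_ev s s' a.2 fun i hi => propext (h i (Or.inr hi))]

theorem CR1_ae_mono {P Q : ℕ → Prop} (hP : AE P) (h : ∀ p, P p → Q p) : AE Q := by
  unfold AE at hP ⊢
  refine hP.subset fun p hp hq => hp (h p hq)

theorem CR1_ae_and {P Q : ℕ → Prop} (hP : AE P) (hQ : AE Q) : AE (fun p => P p ∧ Q p) := by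
  unfold AE at hP hQ ⊢
  refine (hP.union hQ).subset fun p hp => ?_
  by_cases h : P p
  · exact Or.inr fun hq => hp ⟨h, hq⟩
  · exact Or.inl h

theorem CR1_ae_true {P : ℕ → Prop} (h : ∀ p, P p) : AE P := by
  unfold AE
  refine Set.finite_empty.subset fun p hp => hp (h p)

theorem CR1_ae_list {A : Type} (l : List A) (P : A → ℕ → Prop) (h : ∀ a ∈ l, AE (P a)) :
    AE (fun p => ∀ a ∈ l, P a p) := by
  induction l with
  | nil =>
    refine CR1_ae_true fun p a ha => ?_
    exact absurd ha (List.not_mem_nil)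
  | cons a l ih =>
    have h1 := ih fun b hb => h b (List.mem_cons_of_mem a hb)
    have h2 := h a (List.mem_cons_self)
    refine CR1_ae_mono (CR1_ae_and h2 h1) ?_
    rintro p ⟨h3, h4⟩ b hb
    rcases List.mem_cons.1 hb with rfl | hb
    · exact h3
    · exact h4 b hb

theorem CR1_ae_ex {P : ℕ → Prop} (h : AE P) : ∃ p, P p := by
  by_contra hcon
  push Not at hcon
  unfold AE at h
  have h1 : {p | ¬ P p} = Set.univ := by
    ext p
    simp [hcon p]
  rw [h1] at h
  exact Set.infinite_univ h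

theorem CR1_Qm {q : List Bool} {M M' : (ℕ → List Prop) → Prop} (h : ∀ c, M c → M' c)
    {c : ℕ → List Prop} : Qm q M c → Qm q M' c := by
  induction q generalizing c with
  | nil => exact h c
  | cons b q ih =>
    cases b with
    | true =>
      intro h1 x hx
      exact ih (h1 x hx)
    | false =>
      rintro ⟨x, hx, h1⟩
      exact ⟨x, hx, ih h1⟩

theorem CR1_stt_x (r M m : ℕ) (ζ : ℕ → Prop) (b : List Prop) (x x' τ : ℕ → Prop)
    (h : ∀ j < m, (x j ↔ x' j)) (i : ℕ) : stt r M m ζ b x τ i ↔ stt r M m ζ b x' τ i := by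
  unfold stt
  split_ifs with h1 h2 h3
  · exact Iff.rfl
  · exact Iff.rfl
  · exact h _ (by omega)
  · exact Iff.rfl

theorem CR1_stt_z (r M m : ℕ) (ζ ζ' : ℕ → Prop) (b : List Prop) (x τ : ℕ → Prop)
    (h : ∀ j < r, (ζ j ↔ ζ' j)) (i : ℕ) : stt r M m ζ b x τ i ↔ stt r M m ζ' b x τ i := by
  unfold stt
  split_ifs with h1 h2 h3
  · exact h i h1
  · exact Iff.rfl
  · exact Iff.rfl
  · exact Iff.rfl

theorem CR1_stt_b (r M m : ℕ) (ζ : ℕ → Prop) (b b' : List Prop) (x τ τ' : ℕ → Prop) (i : ℕ)
    (h : i < r ∨ (r + M ≤ i ∧ i < r + M + m)) :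
    stt r M m ζ b x τ i ↔ stt r M m ζ b' x τ' i := by
  unfold stt
  split_ifs with h1 h2 h3
  · exact Iff.rfl
  · omega
  · exact Iff.rfl
  · omega

theorem CR1 (hACL : ACL_stmt) (hBTM : BTM_stmt) (hBST : BST_stmt) (hCBR : CBR_stmt) :
    CR1_stmt := by
  classical
  intro m q r cl τ hS hC x hx
  obtain ⟨a1, -, -, -, -, -, a7⟩ := hACL
  set M := q.length with hM
  -- the set of the clause numbers
  let W : ℕ → (ℕ → Po.bits r) → Prop := fun i z => CE z ∧ ∀ d, cl[i]? = some d → ∀ h ∈ d.1,
    AE (fun p => eqAt (stt r M m (bx (z p)) [] (bx (x p)) (fun _ => False)) h)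
  let J : ℕ → Prop := fun i => ∃ z, W i z
  let Z : ℕ → ℕ → Po.bits r := fun i => if h : J i then Classical.choose h else fun _ _ => False
  have hZ : ∀ i, J i → W i (Z i) := by
    intro i hi
    show W i (if h : J i then Classical.choose h else fun _ _ => False)
    rw [dif_pos hi]
    exact Classical.choose_spec hi
  have hZc : ∀ i, CE (Z i) := by
    intro i
    by_cases hi : J i
    · exact (hZ i hi).1
    · show CE (if h : J i then Classical.choose h else fun _ _ => False)
      rw [dif_neg hi]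
      exact a1 (Po.bits r) _
  let X : ℕ → Po.bits (m + cl.length * r) := fun p j =>
    if h : (j : ℕ) < m then x p ⟨j, h⟩ else bx (Z (((j : ℕ) - m) / r) p) (((j : ℕ) - m) % r)
  have hXx : ∀ p, ∀ j < m, (bx (X p) j ↔ bx (x p) j) := by
    intro p j hj
    unfold bx
    constructor
    · rintro ⟨h1, h2⟩
      refine ⟨hj, ?_⟩
      have h3 : (if h : j < m then x p ⟨j, h⟩ else bx (Z ((j - m) / r) p) ((j - m) % r)) := h2
      rw [dif_pos hj] at h3
      exact h3
    · rintro ⟨h1, h2⟩
      refine ⟨Nat.lt_of_lt_of_le hj (Nat.le_add_right _ _), ?_⟩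
      show (if h : j < m then x p ⟨j, h⟩ else bx (Z ((j - m) / r) p) ((j - m) % r))
      rw [dif_pos hj]
      exact h2
  have hXz : ∀ p, ∀ i < cl.length, ∀ j < r, (bx (X p) (m + i * r + j) ↔ bx (Z i p) j) := by
    intro p i hi j hj
    have hr : 0 < r := by omega
    have h1 : ¬ (m + i * r + j < m) := by
      have : m ≤ m + i * r + j := by nlinarith [Nat.zero_le (i * r)]
      omega
    have h2 : m + i * r + j - m = j + i * r := by
      rw [Nat.add_assoc, Nat.add_sub_cancel_left, Nat.add_comm]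
    have h3 : (j + i * r) / r = i := by
      rw [Nat.add_mul_div_right _ _ hr, Nat.div_eq_of_lt hj, Nat.zero_add]
    have h4 : (j + i * r) % r = j := by
      rw [Nat.add_mul_mod_self_right, Nat.mod_eq_of_lt hj]
    have h5 : m + i * r + j < m + cl.length * r := by
      have : (i + 1) * r ≤ cl.length * r := Nat.mul_le_mul_right r hi
      have h6 : (i + 1) * r = i * r + r := by ring
      omega
    have hv : ∀ h : m + i * r + j < m + cl.length * r, X p ⟨m + i * r + j, h⟩ = bx (Z i p) j := by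
      intro h
      show (if h : m + i * r + j < m then x p ⟨m + i * r + j, h⟩ else
        bx (Z ((m + i * r + j - m) / r) p) ((m + i * r + j - m) % r)) = _
      rw [dif_neg h1, h2, h3, h4]
    constructor
    · rintro ⟨h6, h7⟩
      rw [hv h6] at h7
      exact h7
    · intro h6
      refine ⟨h5, ?_⟩
      rw [hv h5]
      exact h6
  have hXc : CE X := by
    rw [a7 Prop (m + cl.length * r) X]
    intro j
    by_cases hj : (j : ℕ) < m
    · have h1 : (fun p => X p j) = fun p => x p ⟨j, hj⟩ := by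
        funext p
        show (if h : (j : ℕ) < m then x p ⟨j, h⟩ else
          bx (Z (((j : ℕ) - m) / r) p) (((j : ℕ) - m) % r)) = _
        rw [dif_pos hj]
      rw [h1]
      exact (a7 Prop m x).1 hx ⟨j, hj⟩
    · have h1 : (fun p => X p j) =
          fun p => bx (Z (((j : ℕ) - m) / r) p) (((j : ℕ) - m) % r) := by
        funext p
        show (if h : (j : ℕ) < m then x p ⟨j, h⟩ else
          bx (Z (((j : ℕ) - m) / r) p) (((j : ℕ) - m) % r)) = _
        rw [dif_neg hj]
      rw [h1]
      have hr : 0 < r := by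
        rcases Nat.eq_zero_or_pos r with h0 | h0
        · have h5 := j.2
          have h6 : cl.length * r = 0 := by rw [h0, Nat.mul_zero]
          omega
        · exact h0
      have h2 : (((j : ℕ) - m) % r) < r := Nat.mod_lt _ hr
      have h3 : (fun p => bx (Z (((j : ℕ) - m) / r) p) (((j : ℕ) - m) % r)) =
          fun p => Z (((j : ℕ) - m) / r) p ⟨((j : ℕ) - m) % r, h2⟩ := by
        funext p
        apply propext
        constructor
        · rintro ⟨_, h4⟩
          exact h4
        · intro h4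
          exact ⟨h2, h4⟩
      rw [h3]
      exact (a7 Prop r _).1 (hZc _) _
  have hKX : AE (fun p => KJ m M r cl J (bx (X p))) := by
    have h1 : AE (fun p => ∀ i ∈ List.range cl.length, J i → ∀ d, cl[i]? = some d → ∀ h ∈ d.1,
        eqAt (stt r M m (bx (Z i p)) [] (bx (x p)) (fun _ => False)) h) := by
      refine CR1_ae_list _ _ fun i hi => ?_
      rw [List.mem_range] at hi
      by_cases hJ : J i
      · have h2 := (hZ i hJ).2 _ (List.getElem?_eq_getElem hi)
        refine CR1_ae_mono (CR1_ae_list _ _ h2) ?_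
        intro p h3 _ d hd h hh
        rw [List.getElem?_eq_getElem hi] at hd
        have hd' : cl[i] = d := Option.some.inj hd
        rw [← hd'] at hh
        exact h3 h hh
      · exact CR1_ae_true fun p h2 => absurd h2 hJ
    refine CR1_ae_mono h1 ?_
    intro p h2 i d hd hJ h hh
    have hi : i < cl.length := by
      by_contra hcon
      rw [List.getElem?_eq_none (by omega)] at hd
      exact absurd hd (by simp)
    have h3 := h2 i (List.mem_range.2 hi) hJ d hd h hh
    refine (CR1_eqAt _ _ h fun l _ => ?_).2 h3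
    rw [CR1_stt_x r M m _ [] (bx (X p)) (bx (x p)) (fun _ => False) (hXx p) l]
    exact CR1_stt_z r M m _ (bx (Z i p)) [] (bx (x p)) (fun _ => False)
      (fun j hj => hXz p i hi j hj) l
  obtain ⟨lam, hV⟩ := hC J
  have hT := hBST _ _ Po.one _ hV
  have hT2 : Tr (mkP (Po.bits (m + cl.length * r)) (fun x => KJ m q.length r cl J (bx x)) q)
      (fun γ => (fun (X : ℕ → Po.bits (m + cl.length * r)) (c : ℕ → List Prop) =>
        AE (fun p => Th m q.length r cl J lam τ (bx (X p)) (c p))) (fun p => rdx q (γ p))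
          (fun p => rdb q (γ p))) := by
    refine hBTM _ _ _ _ ?_ hT
    rintro γ _ ⟨y, _, hy⟩
    exact hy
  have hQ := (hCBR (Po.bits (m + cl.length * r)) (fun x => KJ m q.length r cl J (bx x)) q
    (fun (X : ℕ → Po.bits (m + cl.length * r)) (c : ℕ → List Prop) =>
        AE (fun p => Th m q.length r cl J lam τ (bx (X p)) (c p)))).1 hT2 X hXc hKX
  refine CR1_Qm ?_ hQ
  intro c hc z hz d hd hhyp
  obtain ⟨i, hi, hdi⟩ := List.mem_iff_getElem.1 hd
  have hd' : cl[i]? = some d := by
    rw [List.getElem?_eq_getElem hi, hdi]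
  have hsens : ∀ (s : List Prop) (p : ℕ) (h : Tm × Tm), h ∈ d.1 →
      (eqAt (stt r M m (bx (z p)) s (bx (x p)) τ) h ↔
        eqAt (stt r M m (bx (z p)) [] (bx (x p)) (fun _ => False)) h) := by
    intro s p h hh
    refine CR1_eqAt _ _ h fun l hl => ?_
    exact CR1_stt_b r M m _ _ _ _ _ _ l (hS d hd h hh l hl)
  have hJ : J i := by
    refine ⟨z, hz, ?_⟩
    intro d' hd'' h hh
    rw [hd'] at hd''
    have e : d = d' := Option.some.inj hd''
    rw [← e] at hh
    refine CR1_ae_mono (hhyp h hh) fun p hp => ?_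
    exact (hsens (c p) p h hh).1 hp
  have hall : AE (fun p => ∀ h ∈ d.1, eqAt (stt r M m (bx (z p)) (c p) (bx (x p)) τ) h) :=
    CR1_ae_list _ _ hhyp
  have hres : AE (fun p => ∃ a, d.2[lam i]? = some a ∧
      eqAt (stt r M m (bx (z p)) (c p) (bx (x p)) τ) a) := by
    refine CR1_ae_mono (CR1_ae_and hc hall) ?_
    rintro p ⟨h1, h2⟩
    have hx' : ∀ l, stt r M m (bx (z p)) (c p) (bx (X p)) τ l ↔
        stt r M m (bx (z p)) (c p) (bx (x p)) τ l :=
      CR1_stt_x r M m _ (c p) (bx (X p)) (bx (x p)) τ (hXx p)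
    obtain ⟨a, ha, h3⟩ := h1 i d hd' hJ (bx (z p)) (fun h hh =>
      (CR1_eqAt _ _ h fun l _ => hx' l).2 (h2 h hh))
    exact ⟨a, ha, (CR1_eqAt _ _ a fun l _ => hx' l).1 h3⟩
  obtain ⟨p0, a, ha, _⟩ := CR1_ae_ex hres
  refine ⟨a, List.mem_of_getElem? ha, ?_⟩
  refine CR1_ae_mono hres ?_
  rintro p ⟨a', ha', h3⟩
  rw [ha] at ha'
  have e : a = a' := Option.some.inj ha'
  rw [e]
  exact h3

end PF
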