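import Pool.Agent.helper88.PF.Spec

set_option autoImplicit false

namespace PF

theorem DEB_tb (n i : ℕ) : tb n i ↔ n.testBit i = true := by
  unfold tb
  rw [Nat.testBit_eq_decide_div_mod_eq]
  simp

open Classical in
theorem DEB_succ {k : ℕ} (x : Fin (k + 1) → Prop) :
    eb x = (if x (Fin.last k) then 2 ^ k else 0) + eb (fun i : Fin k => x i.castSucc) := by
  unfold eb
  rw [Fin.sum_univ_castSucc, add_comm]
  rfl

theorem DEB_lt {k : ℕ} (x : Fin k → Prop) : eb x < 2 ^ k := by
  classical
  induction k with
  | zero => simp [eb]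
  | succ k ih =>
    rw [DEB_succ, pow_succ]
    have h := ih (fun i : Fin k => x i.castSucc)
    split_ifs <;> omega

theorem DEB_bit {k : ℕ} (x : Fin k → Prop) (i : ℕ) : (eb x).testBit i = true ↔ bx x i := by
  induction k generalizing i with
  | zero =>
    unfold bx
    simp [eb]
  | succ k ih =>
    rw [DEB_succ]
    have hlt := DEB_lt (fun i : Fin k => x i.castSucc)
    have h1 := ih (fun i : Fin k => x i.castSucc)
    by_cases hx : x (Fin.last k)
    · rw [if_pos hx]
      rcases Nat.lt_trichotomy i k with hik | hik | hik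
      · rw [Nat.testBit_two_pow_add_gt hik, h1]
        unfold bx
        constructor
        · rintro ⟨h, h2⟩
          exact ⟨by omega, h2⟩
        · rintro ⟨h, h2⟩
          exact ⟨hik, h2⟩
      · subst hik
        rw [Nat.testBit_two_pow_add_eq]
        have h2 : (eb fun j : Fin i => x j.castSucc).testBit i = false :=
          Nat.testBit_lt_two_pow hlt
        rw [h2]
        constructor
        · intro _
          exact ⟨by omega, hx⟩
        · intro _
          rfl
      · have h2 : (2 ^ k + eb fun j : Fin k => x j.castSucc) < 2 ^ i := by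
          have h3 : 2 ^ (k + 1) ≤ 2 ^ i := Nat.pow_le_pow_right (by norm_num) hik
          rw [pow_succ] at h3
          omega
        rw [Nat.testBit_lt_two_pow h2]
        constructor
        · intro h; exact absurd h (by decide)
        · rintro ⟨h, _⟩
          omega
    · rw [if_neg hx, zero_add, h1]
      unfold bx
      constructor
      · rintro ⟨h, h2⟩
        exact ⟨by omega, h2⟩
      · rintro ⟨h, h2⟩
        have h3 : i ≠ k := by
          rintro rfl
          exact hx h2
        exact ⟨by omega, h2⟩

theorem DEB_bx_inj {k : ℕ} {x y : Fin k → Prop} (h : ∀ i, bx x i ↔ bx y i) : x = y := by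
  funext i
  apply propext
  have h1 := h i
  unfold bx at h1
  constructor
  · intro h2
    obtain ⟨_, h3⟩ := h1.1 ⟨i.2, h2⟩
    exact h3
  · intro h2
    obtain ⟨_, h3⟩ := h1.2 ⟨i.2, h2⟩
    exact h3

theorem DEB : DEB_stmt := by
  intro k
  have htb : ∀ (x : Po.bits k) (i : ℕ), tb (eb x) i ↔ bx x i := fun x i => by
    rw [DEB_tb]
    exact DEB_bit x i
  refine ⟨⟨fun x => DEB_lt x, ?_, ?_, ?_⟩, htb⟩
  · intro x y hxy
    refine DEB_bx_inj fun i => ?_
    rw [← htb, ← htb, hxy]
  · intro n hn
    refine ⟨fun i => n.testBit i = true, ?_⟩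
    apply Nat.eq_of_testBit_eq
    intro i
    rw [Bool.eq_iff_iff, DEB_bit]
    unfold bx
    constructor
    · rintro ⟨h, h2⟩
      exact h2
    · intro h
      by_cases hik : i < k
      · exact ⟨hik, h⟩
      · have h2 : n < 2 ^ i := lt_of_lt_of_le hn (Nat.pow_le_pow_right (by norm_num) (by omega))
        rw [Nat.testBit_lt_two_pow h2] at h
        exact absurd h (by decide)
  · intro x y
    constructor
    · intro h i _ hi
      rw [htb] at hi ⊢
      obtain ⟨h1, h2⟩ := hi
      exact ⟨h1, h ⟨i, h1⟩ h2⟩
    · intro h i hi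
      have h1 : tb (eb x) i := (htb x i).2 ⟨i.2, hi⟩
      have h2 : (i : ℕ) < eb x := by
        by_contra hcon
        push Not at hcon
        have h3 : eb x < 2 ^ (i : ℕ) := lt_of_le_of_lt hcon (Nat.lt_two_pow_self)
        rw [DEB_tb, Nat.testBit_lt_two_pow h3] at h1
        exact absurd h1 (by decide)
      obtain ⟨_, h3⟩ := (htb y i).1 (h i h2 h1)
      exact h3

end PF
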