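import Pool.Agent.helper88.PF.Spec

set_option autoImplicit false

namespace PF

theorem DPD_pow : Primrec₂ (fun (b d : ℕ) => b ^ d) := by
  have h : Primrec (fun p : ℕ × ℕ => Nat.rec (motive := fun _ => ℕ) 1 (fun _ r => r * p.1) p.2) := by
    refine Primrec.nat_rec' (f := fun p : ℕ × ℕ => p.2) (g := fun _ => 1)
      (h := fun p q => q.2 * p.1) Primrec.snd (Primrec.const 1) ?_
    exact Primrec.nat_mul.comp (Primrec.snd.comp Primrec.snd) (Primrec.fst.comp Primrec.fst)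
  refine h.of_eq fun p => ?_
  induction p.2 with
  | zero => simp
  | succ n ih =>
    simp only [ih, pow_succ]

theorem DPD_bas : Primrec bas := by
  have h1 : Primrec (fun cl : List SCla => cl.foldr (fun d s => d.2.length + s) 0) := by
    refine Primrec.list_foldr (f := fun cl : List SCla => cl) (g := fun _ => 0)
      (h := fun _ q => q.1.2.length + q.2) Primrec.id (Primrec.const 0) ?_
    exact Primrec.nat_add.comp
      (Primrec.list_length.comp (Primrec.snd.comp (Primrec.fst.comp Primrec.snd)))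
      (Primrec.snd.comp Primrec.snd)
  refine (Primrec.succ.comp h1).of_eq fun cl => ?_
  unfold bas
  rw [Nat.succ_eq_add_one]
  congr 1
  induction cl with
  | nil => rfl
  | cons d cl ih =>
    rw [List.foldr_cons, ih, List.map_cons, List.sum_cons]

abbrev DPD_Z : Type := (ℕ × ℕ × List Bool × ℕ) × List SCla

theorem DPD (hDPV : DPV_stmt) (hDPK : DPK_stmt) : DPD_stmt := by
  obtain ⟨hK, hT⟩ := hDPK
  -- projections
  have pm : Primrec (fun z : DPD_Z => z.1.2.1) := Primrec.fst.comp (Primrec.snd.comp Primrec.fst)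
  have pk : Primrec (fun z : DPD_Z => z.1.1) := Primrec.fst.comp Primrec.fst
  have pq : Primrec (fun z : DPD_Z => z.1.2.2.1) :=
    Primrec.fst.comp (Primrec.snd.comp (Primrec.snd.comp Primrec.fst))
  have pr : Primrec (fun z : DPD_Z => z.1.2.2.2) :=
    Primrec.snd.comp (Primrec.snd.comp (Primrec.snd.comp Primrec.fst))
  have pn : Primrec (fun z : DPD_Z => z.2.length) := Primrec.list_length.comp Primrec.snd
  have pas : Computable (fun y : (DPD_Z × (ℕ × ℕ × ℕ)) × ℕ => ((y.1.1, (y.1.2, y.2)) :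
      DPD_Z × (ℕ × ℕ × ℕ) × ℕ)) :=
    (Primrec.pair (Primrec.fst.comp Primrec.fst)
      (Primrec.pair (Primrec.snd.comp Primrec.fst) Primrec.snd)).to_comp
  have hV := hDPV (DPD_Z × (ℕ × ℕ × ℕ)) (fun x => x.1.1.2.1 + x.1.2.length * x.1.1.2.2.2)
    (fun x c => KN x.1.1.2.1 x.1.1.2.2.1.length x.1.1.2.2.2 x.1.2 x.2.2.1 c)
    (fun x => x.1.1.2.2.1)
    (fun x c => ThN x.1.1.2.1 x.1.1.2.2.1.length x.1.1.2.2.2 x.1.2 x.2.2.1 x.2.2.2 x.2.1 c)
    ((Primrec.nat_add.comp (pm.comp Primrec.fst)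
      (Primrec.nat_mul.comp (pn.comp Primrec.fst) (pr.comp Primrec.fst))).to_comp)
    (cp_comp pas hK) (pq.comp Primrec.fst).to_comp (cp_comp pas hT)
  have h1 : ComputablePred (fun y : (DPD_Z × ℕ) × ℕ =>
      ∃ lam < (bas y.1.1.2) ^ y.1.1.2.length,
        VN (y.1.1.1.2.1 + y.1.1.2.length * y.1.1.1.2.2.2)
          (KN y.1.1.1.2.1 y.1.1.1.2.2.1.length y.1.1.1.2.2.2 y.1.1.2 y.2) y.1.1.1.2.2.1 0
          (fun c _ => ThN y.1.1.1.2.1 y.1.1.1.2.2.1.length y.1.1.1.2.2.2 y.1.1.2 y.2 lam y.1.2 c)) := by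
    refine cp_bex (α := (DPD_Z × ℕ) × ℕ)
      (p := fun y lam => VN (y.1.1.1.2.1 + y.1.1.2.length * y.1.1.1.2.2.2)
          (KN y.1.1.1.2.1 y.1.1.1.2.2.1.length y.1.1.1.2.2.2 y.1.1.2 y.2) y.1.1.1.2.2.1 0
          (fun c _ => ThN y.1.1.1.2.1 y.1.1.1.2.2.1.length y.1.1.1.2.2.2 y.1.1.2 y.2 lam y.1.2 c))
      (g := fun y => (bas y.1.1.2) ^ y.1.1.2.length) ?_ ?_
    · have hf : Computable (fun w : ((DPD_Z × ℕ) × ℕ) × ℕ => ((w.1.1.1, (w.1.1.2, w.1.2, w.2)) :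
          DPD_Z × (ℕ × ℕ × ℕ))) :=
        (Primrec.pair (Primrec.fst.comp (Primrec.fst.comp Primrec.fst))
          (Primrec.pair (Primrec.snd.comp (Primrec.fst.comp Primrec.fst))
            (Primrec.pair (Primrec.snd.comp Primrec.fst) Primrec.snd))).to_comp
      exact cp_comp hf hV
    · exact (DPD_pow.comp (DPD_bas.comp (Primrec.snd.comp (Primrec.fst.comp Primrec.fst)))
        (pn.comp (Primrec.fst.comp Primrec.fst))).to_comp
  have h2 : ComputablePred (fun y : DPD_Z × ℕ => ∀ J < 2 ^ y.1.2.length,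
      ∃ lam < (bas y.1.2) ^ y.1.2.length,
        VN (y.1.1.2.1 + y.1.2.length * y.1.1.2.2.2)
          (KN y.1.1.2.1 y.1.1.2.2.1.length y.1.1.2.2.2 y.1.2 J) y.1.1.2.2.1 0
          (fun c _ => ThN y.1.1.2.1 y.1.1.2.2.1.length y.1.1.2.2.2 y.1.2 J lam y.2 c)) := by
    refine cp_ball (α := DPD_Z × ℕ)
      (p := fun y J => ∃ lam < (bas y.1.2) ^ y.1.2.length,
        VN (y.1.1.2.1 + y.1.2.length * y.1.1.2.2.2)
          (KN y.1.1.2.1 y.1.1.2.2.1.length y.1.1.2.2.2 y.1.2 J) y.1.1.2.2.1 0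
          (fun c _ => ThN y.1.1.2.1 y.1.1.2.2.1.length y.1.1.2.2.2 y.1.2 J lam y.2 c))
      (g := fun y => 2 ^ y.1.2.length) h1 ?_
    exact (DPD_pow.comp (Primrec.const 2) (pn.comp Primrec.fst)).to_comp
  refine cp_bex (α := DPD_Z)
    (p := fun z τ => ∀ J < 2 ^ z.2.length, ∃ lam < (bas z.2) ^ z.2.length,
        VN (z.1.2.1 + z.2.length * z.1.2.2.2)
          (KN z.1.2.1 z.1.2.2.1.length z.1.2.2.2 z.2 J) z.1.2.2.1 0
          (fun c _ => ThN z.1.2.1 z.1.2.2.1.length z.1.2.2.2 z.2 J lam τ c))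
    (g := fun z => 2 ^ z.1.1) h2 ?_
  exact (DPD_pow.comp (Primrec.const 2) pk).to_comp

end PF
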